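import Pool.Agent.J4.H63.TL.Main

/-!
# `(r + 1) (1 - π(K_{r+1}^r))` converges as `r → ∞`

The notions are those of `Pool.Agent.H120R2.CliqueDefs`: `ex n r m = ex(n, K_m^r)` and
`turanDensity r m = π(K_m^r)`, the limit of `ex n r m / C(n, r)`.

De Caen's bound is `r (1 - π(K_{r+1}^r)) ≥ 1`, and `r (1 - π(K_{r+1}^r))` is known to be bounded. We
show that it has a limit `L` as `r → ∞`, and that `L` is determined by arbitrary single large
uniformities:

* `L ≤ (1 + 3 √(log (r+1) / (r+1))) (r + 1) (1 - π(K_{r+1}^r))` for every `r ≥ 3`; so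
  `(r + 1) (1 - π(K_{r+1}^r))` can never be much smaller than its limit, `L` is the infimum of the
  right sides, de Caen's bound is asymptotically sharp (`L = 1`) if and only if there are
  arbitrarily large `r` for which it is nearly sharp, and each Turán system for one
  uniformity `r` bounds the Turán densities of all large uniformities;
* with `N` a Poisson variable of mean `y` and `t(r+1, r) = 1 - π(K_{r+1}^r)`,
  `L = inf_{y > 0} coth(y/4) y E t(N+1, N)`, and the right side converges to `L` as `y → ∞`.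

Outline. `t(r+2, r+1) ≤ t(r+1, r)`. The determinant codes of the starting library
(`Pool.Agent.H369R2.TD.asymptotic`; a `(d+1)`-set of random vectors of `F_q^d` carries one linear
dependency, whose set of zeros has about a Poisson number of elements of mean `y`) turn any Turán
systems with the densities `t(j, j-1)` into systems of density `V / (r+1)` for all large `r`, for
all `V > coth(y/4) E N t(N, N-1)`. If `t(r+1, r)` is known for one `r`, then `N t(N, N-1)` is at most
`N t(r+1, r)` for `N > r + 1`; take `y = (r+1) (1 + 2 √(log (r+1) / (r+1)))`, so that `N ≤ r + 1` has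
probability at most `1/(r+1)`. So the upper limit of `(r+1) t(r+1, r)` is at most its lower limit.
-/

set_option autoImplicit false

open Filter Topology

namespace Pool.Agent.Results.MP_a4d830_co.LimitNearDiagonal

open Pool.Agent.H120R2.Clique

/-- The limit `L` of `(r + 1) (1 - π(K_{r+1}^r))` exists and `1 ≤ L ≤ 1.919`; it is bounded by every
single value, up to the factor `1 + 3 √(log (r+1) / (r+1))`; it is the infimum over `y > 0` of
`coth(y/4) y exp(-y) ∑ r, (1 - π(K_{r+1}^r)) y^r / r!` and the limit of this function for `y → ∞`; and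
for every `ε > 0`, all large `r` and all `m > r` one has
`1 - π(K_m^r) ≤ (L + ε) / ((r + 1) ⌊(m - 1)/r⌋^(r-1))`. -/
theorem result :
    (∀ r m : ℕ, Tendsto (fun n : ℕ => (ex n r m : ℝ) / (n.choose r : ℝ)) atTop
      (𝓝 (turanDensity r m))) ∧
    ∃ L : ℝ,
      Tendsto (fun r : ℕ => ((r : ℝ) + 1) * (1 - turanDensity r (r + 1))) atTop (𝓝 L) ∧
      1 ≤ L ∧ L ≤ 1.919 ∧
      (∀ r : ℕ, 3 ≤ r → L ≤ (1 + 3 * √(Real.log ((r : ℝ) + 1) / ((r : ℝ) + 1))) *
        (((r : ℝ) + 1) * (1 - turanDensity r (r + 1)))) ∧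
      (∀ y : ℝ, 0 < y → (Summable fun r : ℕ => (1 - turanDensity r (r + 1)) * (y ^ r / r.factorial)) ∧
        L ≤ (1 + Real.exp (-y / 2)) / (1 - Real.exp (-y / 2)) *
          (y * Real.exp (-y) * ∑' r : ℕ, (1 - turanDensity r (r + 1)) * (y ^ r / r.factorial))) ∧
      Tendsto (fun y : ℝ => (1 + Real.exp (-y / 2)) / (1 - Real.exp (-y / 2)) *
        (y * Real.exp (-y) * ∑' r : ℕ, (1 - turanDensity r (r + 1)) * (y ^ r / r.factorial)))
        atTop (𝓝 L) ∧
      ∀ ε : ℝ, 0 < ε → ∃ r₀ : ℕ, ∀ r : ℕ, r₀ ≤ r → ∀ m : ℕ, r < m →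
        1 - turanDensity r m ≤ (L + ε) / (((r : ℝ) + 1) * (((m - 1) / r : ℕ) : ℝ) ^ (r - 1)) := by
  refine ⟨fun r m => ratio_tendsto r m, Pool.Agent.J4.H63.TL.LL, Pool.Agent.J4.H63.TL.CC_tendsto,
    Pool.Agent.J4.H63.TL.LL_ge, Pool.Agent.J4.H63.TL.LL_1919,
    fun r hr => Pool.Agent.J4.H63.TL.LL_le_CC hr, fun y hy => ⟨?_, ?_⟩, ?_, fun ε hε => ?_⟩
  · exact Pool.Agent.J4.H63.TL.summ y (f := Pool.Agent.J4.H63.TL.tt)
      (M := Pool.Agent.J4.H63.TL.KK) fun j => by
        rw [abs_of_nonneg (Pool.Agent.J4.H63.TL.tt_nonneg j)]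
        have h := Pool.Agent.J4.H63.TL.tt_bound j
        have h1 := Pool.Agent.J4.H63.TL.tt_nonneg j
        have h2 : (0 : ℝ) ≤ j := Nat.cast_nonneg _
        nlinarith
  · have h := Pool.Agent.J4.H63.TL.LL_le_G hy
    rw [Pool.Agent.J4.H63.TL.G_eq] at h
    exact h
  · have h := Pool.Agent.J4.H63.TL.coth_tendsto
    refine h.congr fun y => ?_
    rw [Pool.Agent.J4.H63.TL.G_eq]
    rfl
  · obtain ⟨r₀, hr₀⟩ := eventually_atTop.1
      (Pool.Agent.J4.H63.TL.CC_tendsto.eventually_le_const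
        (show Pool.Agent.J4.H63.TL.LL < Pool.Agent.J4.H63.TL.LL + ε by linarith))
    refine ⟨max r₀ 3, fun r hr m hm => ?_⟩
    have hr3 : 3 ≤ r := (le_max_right _ _).trans hr
    have hb := hr₀ r ((le_max_left _ _).trans hr)
    obtain ⟨s, rfl⟩ : ∃ s, r = s + 1 := ⟨r - 1, by omega⟩
    have e2 : s + 1 - 1 = s := by omega
    rw [e2]
    have h6 := Pool.Agent.H688R3.TuranGen.t_div (s := s) (by omega) (j := s + 1 + 1) (m := m)
      (by omega) (by omega)
    have e3 : s + 1 + 1 - 1 = s + 1 := by omega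
    rw [e3] at h6
    have hq : 1 ≤ (m - 1) / (s + 1) := (Nat.one_le_div_iff (by omega)).2 (by omega)
    have hq' : (0 : ℝ) < (((m - 1) / (s + 1) : ℕ) : ℝ) := by exact_mod_cast hq
    have hp : (0 : ℝ) < (((s + 1 : ℕ) : ℝ) + 1) := by positivity
    rw [le_div_iff₀ (by positivity)]
    have hb' : (((s + 1 : ℕ) : ℝ) + 1) * Pool.Agent.H688R3.TuranGen.t (s + 1) (s + 1 + 1) ≤
        Pool.Agent.J4.H63.TL.LL + ε := hb
    have h7 := mul_le_mul_of_nonneg_left h6 hp.le
    have h8 : (((s + 1 : ℕ) : ℝ) + 1) * (((((m - 1) / (s + 1) : ℕ)) : ℝ) ^ s *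
        (1 - turanDensity (s + 1) m)) ≤ Pool.Agent.J4.H63.TL.LL + ε := h7.trans hb'
    linarith
end Pool.Agent.Results.MP_a4d830_co.LimitNearDiagonal
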